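import Mathlib
import Pool.Agent.H28.Peetre

set_option autoImplicit false

namespace Pool.Agent.Results.MP_fcf092_an.MonomialTestFails

open Polynomial Finset Pool.Agent.H28.Schur Pool.Agent.H28.Peetre Pool.Agent.H28.HermA
  Pool.Agent.H28.HermC

/-- the number operator -/
noncomputable def N₀ : Module.End ℝ ℝ[X] :=
  (LinearMap.mulLeft ℝ X - (1 / 2 : ℝ) • derivative) ∘ₗ derivative

noncomputable def T₀ : Module.End ℝ ℝ[X] :=
  (aeval (C (-1 : ℝ) * X)).toLinearMap ∘ₗ (1 + (1 / 2 : ℝ) • (N₀ * N₀ - N₀))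

lemma N_P (n : ℕ) : N₀ (P n) = (n : ℝ) • P n := by
  have d : ∀ n, derivative (P n) = (n : ℝ) • P (n - 1) := fun n => by
    rw [P, H_der, smul_eq_C_mul]; simp [P]
  rw [N₀, LinearMap.comp_apply, d, map_smul]
  rcases n with _ | n
  · simp
  rw [LinearMap.sub_apply, LinearMap.smul_apply, d, smul_smul, P, P, P, H_succ,
    smul_eq_C_mul (a := _ * _), sub_eq_add_neg, ← neg_mul, ← C_neg, ← C_ofNat, ← C_eq_natCast,
    ← C_mul, ← C_mul]
  congr 4
  simp; ring

lemma T_P (n : ℕ) : T₀ (P n) = ((-1) ^ n * (1 + n * (n - 1) / 2) : ℝ) • P n := by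
  have := H_hom (C (-1 : ℝ)) X (C (-(1 / 4))) n
  rw [sq, ← C_mul, neg_mul_neg, one_mul, C_1, one_mul, ← C_pow, ← P] at this
  have e : aeval (C (-1 : ℝ) * X) (P n) = (-1 : ℝ) ^ n • P n := by
    rw [smul_eq_C_mul, ← this, P]
    exact (H_map (aeval (C (-1 : ℝ) * X) : ℝ[X] →ₐ[ℝ] ℝ[X]) _ _ n).trans (by simp)
  simp only [T₀, LinearMap.comp_apply, LinearMap.add_apply, LinearMap.smul_apply,
    LinearMap.sub_apply, Module.End.mul_apply, Module.End.one_apply, N_P, map_smul, map_add,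
    map_sub, AlgHom.toLinearMap_apply, e]
  module

lemma W_eq (p : ℝ[X]) :
    ∑ k ∈ range (p.natDegree + 1), (1 / 2 : ℝ) ^ k • Qc T₀ k * derivative^[k] p =
      C (p.coeff 0 - p.coeff 2 / 8 + 3 / 16 * p.coeff 4) + C (3 / 8 * p.coeff 3) * X +
        C (p.coeff 2 / 4) * X ^ 2 := by
  refine Polynomial.funext fun z => ?_
  have c : ∀ k, p.coeff k * k.factorial = (derivative^[k] p).eval (2⁻¹ * (-z - z) + z) := fun k => by
    rw [show 2⁻¹ * (-z - z) + z = 0 by ring, ← coeff_zero_eq_eval_zero, coeff_iterate_derivative]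
    simp [Nat.descFactorial_self, mul_comm]
  have c0 := c 0
  have c2 := c 2
  have c3 := c 3
  have c4 := c 4
  rw [scaled]
  simp [Nat.factorial] at c0 c2 c3 c4
  simp [T₀, N₀, derivative_comp, ← comp_eq_aeval, eval_comp, ← c0, ← c2, ← c3, ← c4]
  ring

theorem result : ∃ (T W : ℝ[X] →ₗ[ℝ] ℝ[X]) (γ : ℕ → ℝ) (Q : ℕ → ℝ[X]),
    (∀ n : ℕ, T (((hermite n).map (Int.castRingHom ℝ)).comp (C √2 * X)) =
      γ n • ((hermite n).map (Int.castRingHom ℝ)).comp (C √2 * X)) ∧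
    (∀ p : ℝ[X], T p = ∑ k ∈ range (p.natDegree + 1), Q k * derivative^[k] p) ∧
    (∀ p : ℝ[X], W p = ∑ k ∈ range (p.natDegree + 1), (1 / 2 : ℝ) ^ k • Q k * derivative^[k] p) ∧
    (∀ n : ℕ, W (X ^ n) = 0 ∨ ∀ z : ℂ, aeval z (W (X ^ n)) = 0 → z.im = 0) ∧
    ∃ p : ℝ[X], (∀ z : ℂ, aeval z p = 0 → z.im = 0) ∧ W p ≠ 0 ∧
      ∃ z : ℂ, aeval z (W p) = 0 ∧ z.im ≠ 0 := by
  let W : ℝ[X] →ₗ[ℝ] ℝ[X] :=
    { toFun := fun p => C (p.coeff 0 - p.coeff 2 / 8 + 3 / 16 * p.coeff 4) +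
        C (3 / 8 * p.coeff 3) * X + C (p.coeff 2 / 4) * X ^ 2
      map_add' := fun p q => Polynomial.funext fun z => by simp; ring
      map_smul' := fun c p => Polynomial.funext fun z => by simp; ring }
  have hW : ∀ p z, aeval (z : ℂ) (W p) = (p.coeff 0 - p.coeff 2 / 8 + 3 / 16 * p.coeff 4) +
      (3 / 8 * p.coeff 3) * z + (p.coeff 2 / 4) * z ^ 2 := fun p z => by simp [W]
  refine ⟨T₀, W, _, Qc T₀, fun n => by rw [herm, map_smul, T_P, smul_comm], peetre T₀,
    fun p => (W_eq p).symm, fun n => ?_, (1 + X) ^ 2, (RR_pow 2).resolve_left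
      fun h => by simpa using congrArg (eval 0) h, fun h => ?_, √(7 / 2) * Complex.I, ?_, by simp⟩
  · rcases n with _ | _ | _ | _ | _ | n
    · right; intro z hz; simp [hW, coeff_one] at hz
    · left; simp [W, coeff_X]
    · right; intro z hz
      simp only [hW, coeff_X_pow] at hz
      norm_num at hz
      have h1 := congrArg Complex.re hz
      have h2 := congrArg Complex.im hz
      simp [sq] at h1 h2
      by_contra h
      have : z.re = 0 := mul_left_cancel₀ h (by linarith)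
      rw [this] at h1
      nlinarith [mul_self_nonneg z.im]
    · right; intro z hz; simp [hW, coeff_X_pow] at hz; simp [hz]
    · right; intro z hz; simp [hW, coeff_X_pow] at hz
    · left; simp [W, coeff_X_pow]
  · have := hW ((1 + X) ^ 2) 0
    simp [h, coeff_one_add_X_pow, Nat.choose] at this
    norm_num at this
  · have : ((√(7 / 2) : ℝ) : ℂ) ^ 2 = 7 / 2 := by
      rw [← Complex.ofReal_pow, Real.sq_sqrt (by norm_num)]; norm_num
    rw [hW, mul_pow, this, Complex.I_sq]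
    simp [coeff_one_add_X_pow, Nat.choose]
    norm_num

end Pool.Agent.Results.MP_fcf092_an.MonomialTestFails
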